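import Pool.Agent.Helper165.DB.Main

set_option autoImplicit false

open Pool.Agent.Helper165.DB

/-- There is a complex affine surface `X = Spec R` (reduced, of finite type, of dimension two)
whose Du Bois complex satisfies `ℋ¹ Ω̲¹_X = 0` and `ℋ¹ Ω̲⁰_X ≠ 0`; the cohomology is computed with
an explicit finite smooth hyperresolution `D` of `X`. -/
theorem Pool.Agent.Results.MP_824f38_ag.DuBoisSurface.result :
    ∃ (R : Type) (_ : CommRing R) (_ : Algebra ℂ R) (D : Hyperresolution R),
      IsAffineSurface R ∧ DuBoisH1FormsVanishes D ∧ ¬ DuBoisH1FunctionsVanishes D :=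
  main
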